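import Pool.Agent.H586.AF.E
import Pool.Agent.H643.AF.C

/-!
# Scaling limits of the heat traces
-/

set_option autoImplicit false

open MeasureTheory Matrix Finset Filter Topology

namespace Pool.Agent.H401.AH

open Pool.Agent.H586.AF Pool.Agent.H643.AF

/-- one term -/
theorem term_lim (θ : ℕ → ℝ) (α : ℝ) (hα : Tendsto (fun L : ℕ => (L : ℝ) * θ L) atTop (𝓝 α)) :
    Tendsto (fun L : ℕ => (L : ℝ) ^ 2 * ek (θ L)) atTop (𝓝 (α ^ 2)) := by
  have hinv : Tendsto (fun L : ℕ => ((L : ℝ))⁻¹) atTop (𝓝 0) := tendsto_inv_atTop_nhds_zero_nat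
  have hθ : Tendsto θ atTop (𝓝 0) := by
    have h1 : Tendsto (fun L : ℕ => (L : ℝ) * θ L * ((L : ℝ))⁻¹) atTop (𝓝 (α * 0)) := hα.mul hinv
    rw [mul_zero] at h1
    refine h1.congr' ?_
    filter_upwards [eventually_ge_atTop 1] with L hL
    have h2 : (L : ℝ) ≠ 0 := by
      have : 0 < L := by omega
      positivity
    field_simp
  have hsm : ∀ᶠ L in atTop, |θ L| ≤ 1 := by
    have h1 := (hθ.abs).eventually_lt_const (show |(0 : ℝ)| < 1 by norm_num)
    exact h1.mono fun L hL => hL.le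
  have hb : Tendsto (fun L : ℕ => 5 / 48 * (((L : ℝ) * θ L) ^ 4 * (((L : ℝ))⁻¹) ^ 2)) atTop (𝓝 0) := by
    have h1 := ((hα.pow 4).mul (hinv.pow 2)).const_mul (5 / 48 : ℝ)
    rw [show (5 / 48 : ℝ) * (α ^ 4 * 0 ^ 2) = 0 by ring] at h1
    exact h1
  have hd : Tendsto (fun L : ℕ => (L : ℝ) ^ 2 * ek (θ L) - ((L : ℝ) * θ L) ^ 2) atTop (𝓝 0) := by
    refine squeeze_zero_norm' ?_ hb
    filter_upwards [hsm, eventually_ge_atTop 1] with L h1 h2
    have h3 : (L : ℝ) ≠ 0 := by
      have : 0 < L := by omega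
      positivity
    have h4 := Real.cos_bound h1
    have h5 : (L : ℝ) ^ 2 * ek (θ L) - ((L : ℝ) * θ L) ^ 2 =
        -(2 * (L : ℝ) ^ 2) * (Real.cos (θ L) - (1 - θ L ^ 2 / 2)) := by
      unfold ek
      ring
    rw [h5, Real.norm_eq_abs, abs_mul, abs_neg, abs_of_nonneg (by positivity : (0 : ℝ) ≤ 2 * (L : ℝ) ^ 2)]
    have h6 : (2 * (L : ℝ) ^ 2) * (|θ L| ^ 4 * (5 / 96)) =
        5 / 48 * (((L : ℝ) * θ L) ^ 4 * (((L : ℝ))⁻¹) ^ 2) := by
      have h7 : |θ L| ^ 4 = θ L ^ 4 := by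
        rw [show (4 : ℕ) = 2 * 2 by norm_num, pow_mul, sq_abs, ← pow_mul]
      rw [h7]
      field_simp
      ring
    rw [← h6]
    exact mul_le_mul_of_nonneg_left h4 (by positivity)
  have h8 := hd.add (hα.pow 2)
  rw [zero_add] at h8
  refine h8.congr fun L => ?_
  ring

theorem gen (N : ℕ → ℕ) (θ : ℕ → ℕ → ℝ) (α : ℕ → ℝ) (t : ℝ) (ht : 0 < t)
    (hN : ∀ m, ∀ᶠ L in atTop, m < N L)
    (h0 : ∀ᶠ L : ℕ in atTop, ∀ m, m < N L → 0 ≤ θ L m ∧ θ L m ≤ Real.pi ∧ (m : ℝ) ≤ L * θ L m)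
    (hα : ∀ m, Tendsto (fun L : ℕ => (L : ℝ) * θ L m) atTop (𝓝 (α m))) :
    Tendsto (fun L : ℕ => ∑ m ∈ Finset.range (N L), Real.exp (-((L : ℝ) ^ 2 * t) * ek (θ L m))) atTop
      (𝓝 (∑' m, Real.exp (-(t * α m ^ 2)))) := by
  have hpi := Real.pi_pos
  set c : ℝ := 4 * t / Real.pi ^ 2 with hc
  have hc0 : 0 < c := by rw [hc]; positivity
  have h1 : Tendsto (fun L : ℕ => ∑' m, (if m < N L then Real.exp (-((L : ℝ) ^ 2 * t) * ek (θ L m)) else 0))
      atTop (𝓝 (∑' m, Real.exp (-(t * α m ^ 2)))) := by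
    refine tendsto_tsum_of_dominated_convergence (bound := fun m : ℕ => Real.exp (-c) ^ m) ?_ ?_ ?_
    · exact summable_geometric_of_lt_one (Real.exp_pos _).le (by
        rw [Real.exp_lt_one_iff]
        linarith)
    · intro m
      have h2 := ((term_lim (fun L => θ L m) (α m) (hα m)).const_mul t).neg
      have h3 := (Real.continuous_exp.tendsto _).comp h2
      refine h3.congr' ?_
      filter_upwards [hN m] with L hL
      rw [if_pos hL, Function.comp_apply]
      congr 1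
      ring
    · filter_upwards [h0] with L hL m
      split_ifs with hm
      · obtain ⟨g1, g2, g3⟩ := hL m hm
        rw [Real.norm_eq_abs, abs_of_pos (Real.exp_pos _), ← Real.exp_nat_mul]
        apply Real.exp_le_exp.mpr
        have e1 := ek_ge g1 g2
        have e2 : (m : ℝ) ≤ ((L : ℝ) * θ L m) ^ 2 := by
          rcases Nat.eq_zero_or_pos m with rfl | hm0
          · rw [Nat.cast_zero]
            positivity
          · have e3 : (1 : ℝ) ≤ m := by exact_mod_cast hm0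
            nlinarith
        have e4 : c * m ≤ (L : ℝ) ^ 2 * t * ek (θ L m) := by
          calc c * m ≤ c * ((L : ℝ) * θ L m) ^ 2 := mul_le_mul_of_nonneg_left e2 hc0.le
            _ = (L : ℝ) ^ 2 * t * (4 / Real.pi ^ 2 * θ L m ^ 2) := by
              rw [hc]
              ring
            _ ≤ _ := mul_le_mul_of_nonneg_left e1 (by positivity)
        linarith
      · rw [norm_zero]
        positivity
  refine h1.congr fun L => ?_
  rw [tsum_eq_sum (s := Finset.range (N L)) (fun m hm => by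
    rw [if_neg (fun h => hm (Finset.mem_range.mpr h))])]
  refine Finset.sum_congr rfl fun m hm => ?_
  rw [if_pos (Finset.mem_range.mp hm)]

theorem limD {a : ℝ} : Tendsto (fun L : ℕ => (L : ℝ) * (Real.pi * a / L)) atTop (𝓝 (Real.pi * a)) := by
  refine tendsto_const_nhds.congr' ?_
  filter_upwards [eventually_ge_atTop 1] with L hL
  have h2 : (L : ℝ) ≠ 0 := by
    have : 0 < L := by omega
    positivity
  field_simp

theorem LthD {L m : ℕ} (hL : 1 ≤ L) : (L : ℝ) * thD L m = Real.pi * m := by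
  have h2 : (L : ℝ) ≠ 0 := by
    have : 0 < L := by omega
    positivity
  unfold thD
  field_simp

theorem limN (m : ℕ) : Tendsto (fun L : ℕ => (L : ℝ) * thN L m) atTop (𝓝 (Real.pi * (2 * m + 1) / 2)) := by
  have hinv : Tendsto (fun L : ℕ => ((L : ℝ))⁻¹) atTop (𝓝 0) := tendsto_inv_atTop_nhds_zero_nat
  have h1 : Tendsto (fun L : ℕ => Real.pi * (2 * m + 1) / (2 + ((L : ℝ))⁻¹)) atTop
      (𝓝 (Real.pi * (2 * m + 1) / (2 + 0))) :=
    tendsto_const_nhds.div (tendsto_const_nhds.add hinv) (by norm_num)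
  rw [add_zero] at h1
  refine h1.congr' ?_
  filter_upwards [eventually_ge_atTop 1] with L hL
  have h2 : (0 : ℝ) < L := by
    have : 0 < L := by omega
    positivity
  unfold thN
  field_simp

theorem thN_ge {L m : ℕ} (hL : 1 ≤ L) : (m : ℝ) ≤ (L : ℝ) * thN L m := by
  have h2 : (1 : ℝ) ≤ L := by exact_mod_cast hL
  have h3 : (0 : ℝ) ≤ m := Nat.cast_nonneg m
  have hpi := Real.pi_gt_three
  unfold thN
  rw [mul_div_assoc', le_div_iff₀ (by positivity)]
  have h4 : (0 : ℝ) ≤ L * (2 * m + 1) := by positivity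
  have h5 : 3 * (L * (2 * (m : ℝ) + 1)) ≤ L * (Real.pi * (2 * m + 1)) := by nlinarith
  nlinarith

theorem tsc : Pool.Agent.H586.AF.EE.S_SC := by
  intro t ht
  have hpi := Real.pi_gt_three
  have hDN : Tendsto (fun L : ℕ => ∑ m ∈ Finset.range L, Real.exp (-((L : ℝ) ^ 2 * t) * ek (thN L m))) atTop
      (𝓝 (∑' m : ℕ, Real.exp (-(t * (Real.pi * (2 * m + 1) / 2) ^ 2)))) := by
    refine gen (fun L => L) thN (fun m => Real.pi * (2 * m + 1) / 2) t ht
      (fun m => eventually_gt_atTop m) ?_ limN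
    filter_upwards [eventually_ge_atTop 1] with L hL m hm
    exact ⟨(thN_pos L m).le, (thN_lt hm).le, thN_ge hL⟩
  refine ⟨⟨∑' m : ℕ, Real.exp (-(t * (Real.pi * ((m + 1 : ℕ) : ℝ)) ^ 2)), ?_⟩,
    ⟨∑' m : ℕ, Real.exp (-(t * (Real.pi * (m : ℝ)) ^ 2)), ?_⟩,
    ⟨∑' m : ℕ, Real.exp (-(t * (Real.pi * (2 * m + 1) / 2) ^ 2)), ?_⟩,
    ⟨∑' m : ℕ, Real.exp (-(t * (Real.pi * (2 * m + 1) / 2) ^ 2)), ?_⟩⟩
  · have h1 := gen (fun L => L - 1) (fun L m => thD L (m + 1)) (fun m => Real.pi * ((m + 1 : ℕ) : ℝ)) t ht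
      (fun m => by
        filter_upwards [eventually_gt_atTop (m + 1)] with L hL
        omega)
      (by
        filter_upwards [eventually_ge_atTop 1] with L hL m hm
        refine ⟨thD_nonneg _ _, (thD_lt (by omega)).le, ?_⟩
        rw [LthD hL]
        push_cast
        have h3 : (0 : ℝ) ≤ m := Nat.cast_nonneg m
        nlinarith)
      (fun m => by
        unfold thD
        exact limD)
    refine h1.congr' ?_
    filter_upwards [eventually_ge_atTop 2] with L hL
    exact (cc_lDD L hL _).symm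
  · have h1 := gen (fun L => L) (fun L m => thD L m) (fun m => Real.pi * (m : ℝ)) t ht
      (fun m => eventually_gt_atTop m)
      (by
        filter_upwards [eventually_ge_atTop 1] with L hL m hm
        refine ⟨thD_nonneg _ _, (thD_lt hm).le, ?_⟩
        rw [LthD hL]
        have h3 : (0 : ℝ) ≤ m := Nat.cast_nonneg m
        nlinarith)
      (fun m => by
        unfold thD
        exact limD)
    refine h1.congr' ?_
    filter_upwards [eventually_ge_atTop 2] with L hL
    exact (cc_lNN L hL _).symm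
  · exact hDN.congr fun L => (cc_lDN L _).symm
  · exact hDN.congr fun L => (cc_lND L _).symm

end Pool.Agent.H401.AH
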